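import Pool.Agent.PVD.StmtsL

/-! Squad PVD, row L_WCT: continuity of the weight. -/

set_option autoImplicit false
open MeasureTheory

namespace Pool.Agent.PVD.L.H72

theorem bas_cont {e : ℝ} (h0 : 0 < e) (h1 : e < 1 / 128) :
    ContinuousOn (fun y : ℝ => bas e y) (Set.Icc (1 / 64) 1) := by
  refine continuousOn_pi.2 fun i => ?_
  fin_cases i
  · exact continuousOn_const
  · exact continuousOn_const
  · change ContinuousOn (fun y : ℝ => (y - e) / (e * (1 - e))) _
    exact ((continuousOn_id.sub continuousOn_const).div_const _)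
  · exact continuousOn_const

theorem bas_mem {e y : ℝ} (h0 : 0 < e) (h1 : e < 1 / 128) (hy : 1 / 64 ≤ y) :
    bas e y ∈ DL := by
  refine ⟨le_refl _, one_pos, (beta_pos h0 h1 hy).le, le_refl _⟩

theorem wct (cnt : CntStmt) (wbd : WbdStmt) : WctStmt := by
  intro e h0 h1
  have h2 : e < 1 / 2 := by linarith
  obtain ⟨c1, -, -⟩ := cnt e h0 h2
  have hmap : Set.MapsTo (fun y : ℝ => bas e y) (Set.Icc (1 / 64) 1) DL := fun y hy =>
    bas_mem h0 h1 hy.1
  have hh2 : ContinuousOn (fun y : ℝ => hh e y) (Set.Icc (1 / 64) 1) :=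
    (c1 2 (by decide)).comp (bas_cont h0 h1) hmap
  have hc3 : ContinuousOn (fun y : ℝ => cc e y) (Set.Icc (1 / 64) 1) :=
    (c1 3 (by decide)).comp (bas_cont h0 h1) hmap
  have hden : ContinuousOn (fun y : ℝ => y * (hh e y + cc e y)) (Set.Icc (1 / 64) 1) :=
    continuousOn_id.mul (hh2.add hc3)
  have hw : ContinuousOn (fun y : ℝ => e / (y * (hh e y + cc e y))) (Set.Icc (1 / 64) 1) := by
    refine continuousOn_const.div hden fun y hy => ?_
    obtain ⟨b1, -, b2, -⟩ := wbd e y h0 h1 hy.1 hy.2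
    have h3 : 0 < e ^ 2 / 2 := by positivity
    have h4 : 0 < hh e y + cc e y := by linarith
    have h5 : (0 : ℝ) < y := lt_of_lt_of_le (by norm_num) hy.1
    exact (mul_pos h5 h4).ne'
  exact hw

end Pool.Agent.PVD.L.H72
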