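import Pool.Agent.PVD.StmtsM2

/-! MP_e25c73_gt, block M2, row MSG: signs of the limit functions on the faces. -/

set_option autoImplicit false
open MeasureTheory Filter Topology Set

namespace Pool.Agent.PVD.M.H72

open Pool.Agent.PVD.L Pool.Agent.PVD.M

theorem abs_pu {q : ℝ} (hq : 0 < q) {x : Fin 5 → ℝ} (hx : x ∈ Icc (0 : Fin 5 → ℝ) 1) (i : Fin 5) :
    |pu q x i| ≤ q := by
  have h0 : 0 ≤ x i := hx.1 i
  have h1 : x i ≤ 1 := hx.2 i
  unfold pu
  rw [abs_le]
  constructor
  · nlinarith
  · nlinarith

theorem abs_psg {d : ℝ} (hd : 0 < d) {x : Fin 5 → ℝ} (hx : x ∈ Icc (0 : Fin 5 → ℝ) 1) :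
    |psg d x - 1| ≤ d := by
  have h0 : 0 ≤ x 3 := hx.1 3
  have h1 : x 3 ≤ 1 := hx.2 3
  unfold psg
  rw [abs_le]
  constructor
  · nlinarith
  · nlinarith

theorem py_lo {x : Fin 5 → ℝ} (hx : x ∈ Icc (0 : Fin 5 → ℝ) 1) : 1 / 64 ≤ py x := by
  have h0 : 0 ≤ x 4 := hx.1 4
  unfold py
  linarith

theorem py_hi {x : Fin 5 → ℝ} (hx : x ∈ Icc (0 : Fin 5 → ℝ) 1) : py x ≤ 1 := by
  have h1 : x 4 ≤ 1 := hx.2 4
  unfold py
  linarith

/-- MSG. -/
theorem msg : MsgStmt := by
  intro k q d kap hL x hx i
  obtain ⟨hk, hq0, hq1, hd0, hd1, hkap, H⟩ := hL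
  obtain ⟨hs0, hs1, -, hR0, hR1, hP0, hP1⟩ := H (psg d x) (py x) (pu q x 0) (pu q x 1) (pu q x 2)
    (abs_psg hd0 hx) (py_lo hx) (py_hi hx) (abs_pu hq0 hx 0) (abs_pu hq0 hx 1) (abs_pu hq0 hx 2)
  have hbs : 0 < beta (1 / k) (py x) - ss (1 / k) q (psg d x) (py x) := by linarith
  fin_cases i
  · constructor
    · intro h
      have hp : pu q x 0 = -q := by
        have : x 0 = 0 := h
        unfold pu; rw [this]; ring
      show (1 + q) * (Real.exp (pu q x 0) - 1) < 0
      rw [hp]
      have he : Real.exp (-q) < 1 := Real.exp_lt_one_iff.mpr (by linarith)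
      exact mul_neg_of_pos_of_neg (by linarith) (by linarith)
    · intro h
      have hp : pu q x 0 = q := by
        have : x 0 = 1 := h
        unfold pu; rw [this]; ring
      show 0 < (1 + q) * (Real.exp (pu q x 0) - 1)
      rw [hp]
      have he : 1 < Real.exp q := Real.one_lt_exp_iff.mpr hq0
      exact mul_pos (by linarith) (by linarith)
  · constructor
    · intro h
      have hp : pu q x 1 = -q := by
        have : x 1 = 0 := h
        unfold pu; rw [this]; ring
      show (beta (1 / k) (py x) - ss (1 / k) q (psg d x) (py x)) * (Real.exp (pu q x 1) - 1) < 0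
      rw [hp]
      have he : Real.exp (-q) < 1 := Real.exp_lt_one_iff.mpr (by linarith)
      exact mul_neg_of_pos_of_neg hbs (by linarith)
    · intro h
      have hp : pu q x 1 = q := by
        have : x 1 = 1 := h
        unfold pu; rw [this]; ring
      show 0 < (beta (1 / k) (py x) - ss (1 / k) q (psg d x) (py x)) * (Real.exp (pu q x 1) - 1)
      rw [hp]
      have he : 1 < Real.exp q := Real.one_lt_exp_iff.mpr hq0
      exact mul_pos hbs (by linarith)
  · constructor
    · intro h
      have hp : pu q x 2 = -q := by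
        have : x 2 = 0 := h
        unfold pu; rw [this]; ring
      show pu q x 2 < 0
      rw [hp]; linarith
    · intro h
      have hp : pu q x 2 = q := by
        have : x 2 = 1 := h
        unfold pu; rw [this]; ring
      show 0 < pu q x 2
      rw [hp]; exact hq0
  · constructor
    · intro h
      have hp : psg d x = 1 - d := by
        have : x 3 = 0 := h
        unfold psg; rw [this]; ring
      show LR (1 / k) q (psg d x) (py x) (pu q x 0) (pu q x 1) (pu q x 2) < 0
      have := hR0 hp
      linarith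
    · intro h
      have hp : psg d x = 1 + d := by
        have : x 3 = 1 := h
        unfold psg; rw [this]; ring
      show 0 < LR (1 / k) q (psg d x) (py x) (pu q x 0) (pu q x 1) (pu q x 2)
      have := hR1 hp
      linarith
  · constructor
    · intro h
      have hp : py x = 1 / 64 := by
        have : x 4 = 0 := h
        unfold py; rw [this]; ring
      show - LP (1 / k) q (psg d x) (py x) (pu q x 0) (pu q x 1) (pu q x 2) < 0
      have := hP0 hp
      linarith
    · intro h
      have hp : py x = 1 := by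
        have : x 4 = 1 := h
        unfold py; rw [this]; ring
      show 0 < - LP (1 / k) q (psg d x) (py x) (pu q x 0) (pu q x 1) (pu q x 2)
      have := hP1 hp
      linarith

end Pool.Agent.PVD.M.H72
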