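import Pool.Agent.PVD.StmtsG

/-! Squad PVD, rows WMO, WCO: monotonicity, homogeneity and continuity of `W`. -/

set_option autoImplicit false

open MeasureTheory Metric Set Filter Topology

namespace PVD.H72

open PV PV3
open scoped Pointwise

theorem ch_mono {n : ℕ} {R : Finset ℕ} {H H' : ℕ → ℝ} (h : ∀ r ∈ R, H r ≤ H' r) :
    Ch n R H ⊆ Ch n R H' := fun _ hd => ⟨hd.1, fun r hr => (hd.2 r hr).trans (h r hr)⟩

theorem ch_smul {n : ℕ} {R : Finset ℕ} {H : ℕ → ℝ} {t : ℝ} (ht : 0 < t) :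
    Ch n R (fun r => t * H r) = t • Ch n R H := by
  ext d
  rw [Set.mem_smul_set_iff_inv_smul_mem₀ ht.ne']
  constructor
  · rintro ⟨h1, h2⟩
    refine ⟨fun j => ?_, fun r hr => ?_⟩
    · rw [Pi.smul_apply, smul_eq_mul]
      exact mul_nonneg (inv_nonneg.2 ht.le) (h1 j)
    · have h3 : ∑ j : Fin n, kap n r (j.1 + 1) * (t⁻¹ • d) j =
          t⁻¹ * ∑ j : Fin n, kap n r (j.1 + 1) * d j := by
        rw [Finset.mul_sum]
        refine Finset.sum_congr rfl fun j _ => ?_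
        rw [Pi.smul_apply, smul_eq_mul]
        ring
      rw [h3, inv_mul_le_iff₀ ht]
      exact h2 r hr
  · rintro ⟨h1, h2⟩
    refine ⟨fun j => ?_, fun r hr => ?_⟩
    · have h3 := h1 j
      rw [Pi.smul_apply, smul_eq_mul] at h3
      have h4 : t * (t⁻¹ * d j) = d j := by field_simp
      rw [← h4]
      exact mul_nonneg ht.le h3
    · have h3 := h2 r hr
      have h4 : ∑ j : Fin n, kap n r (j.1 + 1) * (t⁻¹ • d) j =
          t⁻¹ * ∑ j : Fin n, kap n r (j.1 + 1) * d j := by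
        rw [Finset.mul_sum]
        refine Finset.sum_congr rfl fun j _ => ?_
        rw [Pi.smul_apply, smul_eq_mul]
        ring
      rw [h4, inv_mul_le_iff₀ ht] at h3
      exact h3

/-- WMO -/
theorem wmo (wps : WPSStmt) : WMOStmt := by
  intro n R H hR
  refine ⟨fun H' h => ?_, fun t ht => ?_, fun H' h => ?_⟩
  · exact ENNReal.toReal_mono ((wps n R H' hR).1.measure_lt_top.ne) (measure_mono (ch_mono h))
  · unfold W
    rw [ch_smul ht, Measure.addHaar_smul, ENNReal.toReal_mul, Module.finrank_fintype_fun_eq_card,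
      Fintype.card_fin, abs_of_pos (pow_pos ht n), ENNReal.toReal_ofReal (pow_pos ht n).le]
  · unfold W
    rw [Set.Subset.antisymm (ch_mono fun r hr => (h r hr).le) (ch_mono fun r hr => (h r hr).ge)]

/-- WCO -/
theorem wco (wmo : WMOStmt) : WCOStmt := by
  intro n R H hR hpos ι F Hm hlim
  rw [Metric.tendsto_nhds]
  intro δ hδ
  -- choose `ε`
  have hc1 : Tendsto (fun ε : ℝ => (1 - ε) ^ n * W n R H) (𝓝[>] 0) (𝓝 (W n R H)) := by
    have h1 : ContinuousAt (fun ε : ℝ => (1 - ε) ^ n * W n R H) 0 := by fun_prop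
    have h2 := h1.tendsto.mono_left (nhdsWithin_le_nhds (s := Ioi (0 : ℝ)))
    simpa using h2
  have hc2 : Tendsto (fun ε : ℝ => (1 + ε) ^ n * W n R H) (𝓝[>] 0) (𝓝 (W n R H)) := by
    have h1 : ContinuousAt (fun ε : ℝ => (1 + ε) ^ n * W n R H) 0 := by fun_prop
    have h2 := h1.tendsto.mono_left (nhdsWithin_le_nhds (s := Ioi (0 : ℝ)))
    simpa using h2
  have h1 := (Metric.tendsto_nhds.1 hc1) δ hδ
  have h2 := (Metric.tendsto_nhds.1 hc2) δ hδ
  have h3 : ∀ᶠ ε : ℝ in 𝓝[>] 0, ε ∈ Ioo (0 : ℝ) 1 := Ioo_mem_nhdsGT one_pos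
  obtain ⟨ε, hε1, hε2, hε3⟩ := (h1.and (h2.and h3)).exists
  have h4 : ∀ᶠ i in F, ∀ r ∈ R, (1 - ε) * H r ≤ Hm i r ∧ Hm i r ≤ (1 + ε) * H r := by
    rw [Filter.eventually_all_finset]
    intro r hr
    have h5 : (1 - ε) * H r < H r := by nlinarith [hpos r hr, hε3.1]
    have h6 : H r < (1 + ε) * H r := by nlinarith [hpos r hr, hε3.1]
    have h7 := (hlim r hr).eventually (Ioo_mem_nhds h5 h6)
    exact h7.mono fun i hi => ⟨hi.1.le, hi.2.le⟩
  refine h4.mono fun i hi => ?_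
  have h5 := ((wmo n R (fun r => (1 - ε) * H r) hR).1 (Hm i) fun r hr => (hi r hr).1)
  have h6 := ((wmo n R (Hm i) hR).1 (fun r => (1 + ε) * H r) fun r hr => (hi r hr).2)
  rw [(wmo n R H hR).2.1 (1 - ε) (by linarith [hε3.2])] at h5
  rw [(wmo n R H hR).2.1 (1 + ε) (by linarith [hε3.1])] at h6
  rw [Real.dist_eq, abs_lt] at hε1 hε2 ⊢
  constructor
  · linarith [hε1.1]
  · linarith [hε2.2]

end PVD.H72
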